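import Pool.Agent.R779.HK.Tup
import Pool.Agent.R852.MX.Roots

set_option autoImplicit false
set_option linter.unusedSectionVars false
set_option linter.unusedVariables false

/-! # Forms over products of Hankel determinantal ideals -/

namespace Pool.Agent.K3h64.MH

open MvPolynomial Pool.Agent.W574.SM Pool.Agent.W574.LM Pool.Agent.H628R4.TP
  Pool.Agent.W574.HS Pool.Agent.TH192.DT Pool.Agent.R779.HK Pool.Agent.R852.MX

variable {T B : Type} [Fintype T] [DecidableEq T] [Fintype B] [DecidableEq B]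

/-- The products of minors, one minor of the size `p t` for each `t` in the block `b`; they
generate the product of the ideals of the minors of the sizes `p t`, `β t = b`. -/
noncomputable def blkH (N : ℕ) (p : T → ℕ) (β : T → B) (b : B) :
    ((t : {t // β t = b}) → HIdx N (p t.1)) → MvPolynomial (Fin N) ℂ :=
  prodFam fun t : {t // β t = b} => hankel N (p t.1)

/-- The numbers `ν`: the codimension `N - 2 d` of the Hankel matrices of rank at most `d`, and `1`
for the strict transforms of the `F_b = 0`. -/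
def nuB (N : ℕ) (B : Type) : Fin ((N + 1) / 2) ⊕ B → ℕ := Sum.elim (fun d => N - 2 * d) fun _ => 1

/-- The multiplicities of `∏ b, F_b ^ a b`: `∑ t, a (β t) * (p t - d)` along `E_d`, and `a b` along
the strict transform of `F_b = 0`. -/
def mulB (N : ℕ) (p : T → ℕ) (β : T → B) (a : B → ℕ) : Fin ((N + 1) / 2) ⊕ B → ℕ :=
  Sum.elim (fun d => ∑ t, a (β t) * (p t - d)) a

theorem nuB_pos (N : ℕ) (B : Type) (x : Fin ((N + 1) / 2) ⊕ B) : 0 < nuB N B x :=
  nuH_pos N B x

theorem blkH_ne (N : ℕ) (p : T → ℕ) (β : T → B) (hp : ∀ t, 2 * p t < N) (b : B) :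
    ∃ j, blkH N p β b j ≠ 0 := by
  choose j hj using fun t : {t // β t = b} => hankel_ne N (p t.1) (hp t.1)
  refine ⟨j, ?_⟩
  change ∏ t : {t // β t = b}, hankel N (p t.1) (j t) ≠ 0
  exact Finset.prod_ne_zero_iff.2 fun t _ => hj t

theorem sum_blk (p : T → ℕ) (β : T → B) (a : B → ℕ) (d : ℕ) :
    ∑ x : (Σ q : (Σ b, Fin (a b)), {t // β t = q.1}), (p x.2.1 - d) =
      ∑ t, a (β t) * (p t - d) := by
  rw [Fintype.sum_sigma, Fintype.sum_sigma, ← Fintype.sum_fiberwise β]
  refine Finset.sum_congr rfl fun b _ => ?_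
  trans ∑ _i : Fin (a b), ∑ t : {t // β t = b}, (p t.1 - d)
  · rfl
  · rw [Finset.sum_const, Finset.card_univ, Fintype.card_fin, smul_eq_mul, Finset.mul_sum]
    exact Finset.sum_congr rfl fun t _ => by rw [t.2]

/-- the roots of the functional equations of the product of Hankel determinantal ideals, over an
arbitrary finite index set -/
theorem ideal_rootsI {τ : Type} [Fintype τ] [DecidableEq τ] (N d : ℕ) (p : τ → ℕ)
    (hp : ∀ t, 2 * p t < N) (b : Polynomial ℂ) (H : MvPolynomial (Fin N) ℂ)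
    (hH : MvPolynomial.constantCoeff H ≠ 0)
    (hb : IsLocEq H (prodFam fun t => hankel N (p t)) b) (l : ℕ) (hl : l < ∑ t, (p t - d)) :
    b.eval (-(((N - 2 * d : ℕ) : ℂ) + l) / (∑ t, (p t - d) : ℕ)) = 0 := by
  have h1 : IsLocEq H (prodFam fun q : Σ _ : τ, Fin 1 => hankel N (p q.1)) b := by
    refine locEq_reindex
      { toFun := fun (J : (q : Σ _ : τ, Fin 1) → HIdx N (p q.1)) => fun t => J ⟨t, 0⟩
        invFun := fun J q => J q.1
        left_inv := fun J => by
          funext q
          obtain ⟨t, i⟩ := q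
          have hi : i = 0 := Subsingleton.elim _ _
          subst hi
          rfl
        right_inv := fun J => rfl } H _ _ ?_ b hb
    intro J
    change ∏ t : τ, hankel N (p t) (J ⟨t, 0⟩) = ∏ q : Σ _ : τ, Fin 1, hankel N (p q.1) (J q)
    rw [Fintype.prod_sigma]
    refine Finset.prod_congr rfl fun t _ => ?_
    rw [Fin.prod_univ_one]
  have h2 : ∑ t, (p t - d) = ∑ t, 1 * (p t - d) := Finset.sum_congr rfl fun t _ => (one_mul _).symm
  rw [h2] at hl ⊢
  exact ideal_roots N d p (fun _ => 1) hp b H hH h1 l hl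

theorem blk_roots (N : ℕ) (p : T → ℕ) (β : T → B) (a : B → ℕ) (hp : ∀ t, 2 * p t < N)
    (b : Polynomial ℂ) (hb : PowData a (blkH N p β) b) (x : Fin ((N + 1) / 2) ⊕ B) (l : ℕ)
    (hl : l < mulB N p β a x) : b.eval (-((nuB N B x : ℂ) + l) / mulB N p β a x) = 0 := by
  rcases x with d | c
  · change l < ∑ t, a (β t) * (p t - d) at hl
    obtain ⟨t0, _, ht0⟩ := Finset.exists_ne_zero_of_sum_ne_zero
      (by omega : ∑ t, a (β t) * (p t - (d : ℕ)) ≠ 0)
    obtain ⟨H, hH, hHb⟩ := hb.ideal ⟨β t0, left_ne_zero_of_mul ht0⟩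
    have h1 : IsLocEq H (prodFam fun x : (Σ q : (Σ b, Fin (a b)), {t // β t = q.1}) =>
        hankel N (p x.2.1)) b := by
      refine locEq_reindex (Equiv.piCurry
        (fun (q : Σ b, Fin (a b)) (t : {t // β t = q.1}) => HIdx N (p t.1))) H _ _ ?_ b hHb
      intro J
      exact (Fintype.prod_sigma (fun x : (Σ q : (Σ b, Fin (a b)), {t // β t = q.1}) =>
        hankel N (p x.2.1) (J x))).symm
    have h2 := ideal_rootsI N d (fun x : (Σ q : (Σ b, Fin (a b)), {t // β t = q.1}) => p x.2.1)
      (fun x => hp _) b H hH h1 l (by rw [sum_blk p β a d]; exact hl)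
    rw [sum_blk p β a d] at h2
    exact h2
  · have h3 := hb.strict c l hl
    change b.eval (-(((1 : ℕ) : ℂ) + l) / a c) = 0
    rw [Nat.cast_one]
    exact h3

end Pool.Agent.K3h64.MH
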